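import Mathlib

namespace Pool.Agent.Results.MP_e6ec33_pr.Disproof

open Finset Filter Topology MeasureTheory SimpleGraph unitInterval
open scoped Classical ENNReal

variable {n : ℕ}

/-- `L` is a list of vertex-disjoint paths of `H` (each a nonempty list of vertices, consecutive
ones adjacent; no vertex is repeated) that covers every vertex. -/
def IsCover (H : SimpleGraph (Fin n)) (L : List (List (Fin n))) : Prop :=
  (∀ l ∈ L, l ≠ [] ∧ l.IsChain H.Adj) ∧ L.flatten.Nodup ∧ ∀ v, v ∈ L.flatten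

/-- The path cover number. -/
noncomputable def mu (H : SimpleGraph (Fin n)) : ℕ := sInf {m | ∃ L, IsCover H L ∧ L.length = m}

/-- `f_k(G) = m`: `m` is the least size of an edge set `F` of `G` with `μ(G - F) = k`. -/
def FEq (k : ℕ) (G : SimpleGraph (Fin n)) (m : ℕ) : Prop :=
  IsLeast {m | ∃ F ⊆ G.edgeFinset, F.card = m ∧ mu (G.deleteEdges F) = k} m

lemma mu_spec (H : SimpleGraph (Fin n)) : ∃ L, IsCover H L ∧ L.length = mu H :=
  Nat.sInf_mem (s := {m | ∃ L, IsCover H L ∧ L.length = m})
    ⟨_, (List.finRange n).map fun v => [v], ⟨by simp, by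
      rw [← List.flatMap_def]; simpa using List.nodup_finRange n, by simp⟩, rfl⟩

lemma mu_le {H : SimpleGraph (Fin n)} {L : List (List (Fin n))} (h : IsCover H L) :
    mu H ≤ L.length := Nat.sInf_le ⟨L, h, rfl⟩

lemma mu_mono {G H : SimpleGraph (Fin n)} (h : H ≤ G) : mu G ≤ mu H := by
  obtain ⟨L, hL, h1⟩ := mu_spec H
  exact h1 ▸ mu_le ⟨fun l hl => ⟨(hL.1 l hl).1, (hL.1 l hl).2.imp fun _ _ ha => h ha⟩, hL.2⟩

lemma avoid {H : SimpleGraph (Fin n)} {e : Sym2 (Fin n)} {x : Fin n} (hx : x ∈ e)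
    {l : List (Fin n)} (hl : x ∉ l) (h : l.IsChain H.Adj) :
    l.IsChain (H.deleteEdges {e}).Adj := by
  refine h.imp_of_mem_imp fun a b ha hb hab => ?_
  simp only [deleteEdges_adj, Set.mem_singleton_iff]
  refine ⟨hab, ?_⟩
  rintro rfl
  rcases Sym2.mem_iff.1 hx with rfl | rfl <;> contradiction

lemma split (H : SimpleGraph (Fin n)) (e : Sym2 (Fin n)) : ∀ l : List (Fin n), l.Nodup →
    l.IsChain H.Adj → l.IsChain (H.deleteEdges {e}).Adj ∨ ∃ l1 l2, l = l1 ++ l2 ∧ l1 ≠ [] ∧
      l2 ≠ [] ∧ l1.IsChain (H.deleteEdges {e}).Adj ∧ l2.IsChain (H.deleteEdges {e}).Adj ∧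
      ∃ x ∈ l, x ∈ e
  | [], _, _ => Or.inl .nil
  | [x], _, _ => Or.inl (.singleton x)
  | x :: y :: t, h1, h2 => by
    rw [List.isChain_cons_cons] at h2
    rw [List.nodup_cons] at h1
    by_cases he : s(x, y) = e
    · exact Or.inr ⟨[x], y :: t, rfl, by simp, by simp, .singleton x,
        avoid (he ▸ Sym2.mem_mk_left x y) h1.1 h2.2, x, by simp, he ▸ Sym2.mem_mk_left x y⟩
    · have hxy : (H.deleteEdges {e}).Adj x y := by simp [h2.1, he]
      rcases split H e (y :: t) h1.2 h2.2 with h | ⟨l1, l2, h3, h4, h5, h6, h7, z, h8, h9⟩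
      · exact Or.inl (List.isChain_cons_cons.2 ⟨hxy, h⟩)
      · obtain ⟨w, l1, rfl⟩ := List.exists_cons_of_ne_nil h4
        obtain ⟨rfl, rfl⟩ := List.cons.inj h3
        exact Or.inr ⟨x :: y :: l1, l2, rfl, by simp, h5, List.isChain_cons_cons.2 ⟨hxy, h6⟩, h7,
          z, List.mem_cons_of_mem _ h8, h9⟩

lemma split_all (H : SimpleGraph (Fin n)) (e : Sym2 (Fin n)) : ∀ L : List (List (Fin n)),
    L.flatten.Nodup → (∀ l ∈ L, l ≠ [] ∧ l.IsChain H.Adj) → ∃ L' : List (List (Fin n)),
      L'.flatten = L.flatten ∧ L'.length ≤ L.length + 1 ∧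
      ∀ l ∈ L', l ≠ [] ∧ l.IsChain (H.deleteEdges {e}).Adj
  | [], _, _ => ⟨[], rfl, by simp, by simp⟩
  | l :: L, h1, h2 => by
    rw [List.flatten_cons, List.nodup_append] at h1
    rw [List.forall_mem_cons] at h2
    rcases split H e l h1.1 h2.1.2 with h | ⟨l1, l2, h3, h4, h5, h6, h7, z, h8, h9⟩
    · obtain ⟨L', h3, h4, h5⟩ := split_all H e L h1.2.1 h2.2
      exact ⟨l :: L', by simp [h3], by simpa using h4, List.forall_mem_cons.2 ⟨⟨h2.1.1, h⟩, h5⟩⟩
    · refine ⟨l1 :: l2 :: L, by simp [h3], by simp, List.forall_mem_cons.2 ⟨⟨h4, h6⟩,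
        List.forall_mem_cons.2 ⟨⟨h5, h7⟩, fun l' hl' => ⟨(h2.2 l' hl').1, avoid h9
          (fun hz => h1.2.2 z h8 z (List.mem_flatten.2 ⟨l', hl', hz⟩) rfl) (h2.2 l' hl').2⟩⟩⟩⟩

lemma mu_del (H : SimpleGraph (Fin n)) (e : Sym2 (Fin n)) :
    mu (H.deleteEdges {e}) ≤ mu H + 1 := by
  obtain ⟨L, hL, h1⟩ := mu_spec H
  obtain ⟨L', h2, h3, h4⟩ := split_all H e L hL.2.1 hL.1
  exact (mu_le ⟨h4, h2 ▸ hL.2.1, h2 ▸ hL.2.2⟩).trans (h1 ▸ h3)

lemma ivt (G : SimpleGraph (Fin n)) {k : ℕ} (h : mu G ≤ k) (F : Finset (Sym2 (Fin n)))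
    (hF : k ≤ mu (G.deleteEdges F)) : ∃ F' ⊆ F, mu (G.deleteEdges F') = k := by
  induction F using Finset.induction_on with
  | empty => exact ⟨∅, le_rfl, by simp at hF ⊢; omega⟩
  | insert e F _ ih =>
    by_cases h1 : k ≤ mu (G.deleteEdges F)
    · obtain ⟨F', h2, h3⟩ := ih h1
      exact ⟨F', h2.trans (subset_insert _ _), h3⟩
    · have := mu_del (G.deleteEdges F) e
      rw [deleteEdges_deleteEdges, Set.union_comm, ← Set.insert_eq, ← coe_insert] at this
      exact ⟨_, le_rfl, by omega⟩

lemma isolated {H : SimpleGraph (Fin n)} (S : Finset (Fin n)) (hS : S.card < n)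
    (h : ∀ v ∈ S, ∀ u, ¬ H.Adj v u) : S.card + 1 ≤ mu H := by
  obtain ⟨L, hL, h1⟩ := mu_spec H
  obtain ⟨u, -, hu⟩ := exists_mem_notMem_of_card_lt_card (s := S) (t := univ) (by simpa using hS)
  obtain ⟨l, hl, hul⟩ := List.mem_flatten.1 (hL.2.2 u)
  have h2 : insert l (S.image fun v => [v]) ⊆ L.toFinset := by
    refine insert_subset (by simpa using hl) (image_subset_iff.2 fun v hv => ?_)
    obtain ⟨l, hl, hvl⟩ := List.mem_flatten.1 (hL.2.2 v)
    obtain ⟨l1, l2, rfl⟩ := List.append_of_mem hvl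
    have h3 := (hL.1 _ hl).2
    rw [List.isChain_split] at h3
    have h4 : l2 = [] := by
      cases l2 with
      | nil => rfl
      | cons a t => exact absurd (List.isChain_cons_cons.1 h3.2).1 (h v hv a)
    have h5 : l1 = [] := by
      rcases List.eq_nil_or_concat l1 with h5 | ⟨t, a, rfl⟩
      · exact h5
      · have := h3.1
        simp only [List.concat_eq_append, List.append_assoc, List.singleton_append] at this
        exact absurd (List.isChain_cons_cons.1 (List.isChain_split.1 this).2).1.symm (h v hv a)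
    simpa [h4, h5] using hl
  have h3 := card_le_card h2
  rw [card_insert_of_notMem (by
    simp only [mem_image, not_exists, not_and]
    rintro v hv rfl
    exact hu (by rwa [List.mem_singleton.1 hul])),
    card_image_of_injective _ fun a b h => by simpa using h] at h3
  exact h3.trans (h1 ▸ List.toFinset_card_le L)

lemma feq_le {G : SimpleGraph (Fin n)} {m : ℕ} (S : Finset (Fin n)) (hS : S.card < n)
    (h : FEq (S.card + 1) G m) : m ≤ ∑ v ∈ S, G.degree v := by
  obtain ⟨⟨F, -, -, hF⟩, h2⟩ := h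
  obtain ⟨F', h3, h4⟩ := ivt G (hF ▸ mu_mono (deleteEdges_le _))
    (S.biUnion fun v => G.incidenceFinset v) (isolated S hS fun v hv u ha => by
      rw [deleteEdges_adj] at ha
      exact ha.2 (by simpa using ⟨v, hv, by simpa [mk'_mem_incidenceSet_left_iff] using ha.1⟩))
  refine (h2 ⟨F', h3.trans (biUnion_subset.2 fun v _ => incidenceFinset_subset _ _), rfl,
    h4⟩).trans ((card_le_card h3).trans (card_biUnion_le.trans ?_))
  simp [card_incidenceFinset_eq_degree]

lemma nbr (p : I) (v : Fin n) (S : Finset (Fin n)) (hS : S ⊆ univ.erase v) :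
    (binomialRandom (Fin n) p).real {G | G.neighborFinset v = S} ≤
      (p : ℝ) ^ S.card * (1 - p) ^ (n - 1 - S.card) := by
  have hinj : Function.Injective fun u : Fin n => s(v, u) := fun a b h => Sym2.congr_right.1 h
  have h1 : binomialRandom (Fin n) p {G | G.neighborFinset v = S} ≤ ∏ u ∈ univ.erase v,
      (if u ∈ S then (toNNReal p : ℝ≥0∞) else toNNReal (σ p)) := by
    rw [binomialRandom_apply]
    refine (measure_mono (t := Set.pi ((univ.erase v).image fun u => s(v, u) : Finset _)
      fun e => {e ∈ S.image fun u => s(v, u)}) ?_).trans ?_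
    · rintro _ ⟨G, rfl, rfl⟩ e he
      obtain ⟨u, -, rfl⟩ := mem_image.1 he
      simp [hinj.mem_finset_image]
    · rw [Measure.infinitePi_pi _ fun _ _ => .of_discrete, prod_image hinj.injOn]
      refine le_of_eq (prod_congr rfl fun u hu => ?_)
      have : v ≠ u := (mem_erase.1 hu).1.symm
      by_cases h : u ∈ S <;> simp [hinj.mem_finset_image, h, this]
  rw [prod_ite, prod_const, prod_const, filter_mem_eq_inter, inter_eq_right.2 hS,
    filter_not, filter_mem_eq_inter, inter_eq_right.2 hS, card_sdiff_of_subset hS,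
    card_erase_of_mem (mem_univ _), card_univ, Fintype.card_fin] at h1
  refine (ENNReal.toReal_mono (by finiteness) h1).trans (le_of_eq ?_)
  simp

lemma chernoff (p : I) (v : Fin n) (l a : ℝ) :
    (binomialRandom (Fin n) p).real {G | a ≤ l * G.degree v} ≤
      Real.exp ((n - 1 : ℕ) * (p * (Real.exp l - 1)) - a) := by
  have h1 : {G : SimpleGraph (Fin n) | a ≤ l * G.degree v} ⊆ ⋃ S ∈ (univ.erase v).powerset.filter
      fun S => a ≤ l * S.card, {G | G.neighborFinset v = S} := fun G hG =>
    Set.mem_biUnion (x := G.neighborFinset v) (by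
      simp only [coe_filter, mem_powerset, Set.mem_ofPred_eq]
      exact ⟨fun u hu => by simpa using ((G.mem_neighborFinset v u).1 hu).ne', hG⟩) rfl
  have hp := p.2.1
  have hq : (0 : ℝ) ≤ 1 - p := sub_nonneg.2 p.2.2
  refine (measureReal_mono h1 (measure_ne_top _ _)).trans ((measureReal_biUnion_finset_le _ _).trans ?_)
  calc _ ≤ ∑ S ∈ (univ.erase v).powerset, (p * Real.exp l) ^ S.card * (1 - p) ^
        ((univ.erase v).card - S.card) * Real.exp (-a) := by
        refine (sum_le_sum fun S hS => ?_).trans (sum_le_sum_of_subset_of_nonneg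
          (filter_subset _ _) fun _ _ _ => by positivity)
        obtain ⟨h2, h3⟩ := mem_filter.1 hS
        refine (nbr p v S (mem_powerset.1 h2)).trans ?_
        rw [card_erase_of_mem (mem_univ _), card_univ, Fintype.card_fin, mul_pow,
          ← Real.exp_nat_mul]
        have : 1 ≤ Real.exp (S.card * l) * Real.exp (-a) := by
          rw [← Real.exp_add]; exact Real.one_le_exp (by linarith)
        calc _ ≤ (p : ℝ) ^ S.card * (1 - p) ^ (n - 1 - S.card) *
            (Real.exp (S.card * l) * Real.exp (-a)) := le_mul_of_one_le_right (by positivity) this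
          _ = _ := by ring
    _ ≤ _ := by
        rw [← sum_mul, sum_pow_mul_eq_add_pow, card_erase_of_mem (mem_univ _), card_univ,
          Fintype.card_fin, sub_eq_add_neg _ a, Real.exp_add, Real.exp_nat_mul]
        gcongr
        linarith [Real.add_one_le_exp (p * (Real.exp l - 1))]

lemma union (p : I) (l a : ℝ) :
    (binomialRandom (Fin n) p).real {G | ∃ v, a ≤ l * G.degree v} ≤
      Real.exp (Real.log n + ((n - 1 : ℕ) * (p * (Real.exp l - 1)) - a)) := by
  rcases Nat.eq_zero_or_pos n with rfl | hn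
  · simp [Real.exp_nonneg]
  rw [Set.ofPred_exists, Real.exp_add, Real.exp_log (by positivity)]
  refine (measureReal_iUnion_fintype_le _).trans ((sum_le_sum fun v _ => chernoff p v l a).trans ?_)
  simp

lemma log_tend : Tendsto (fun n : ℕ => Real.log n) atTop atTop :=
  Real.tendsto_log_atTop.comp tendsto_natCast_atTop_atTop

theorem result :
    (∀ p : ℕ → I, Tendsto (fun n : ℕ => n * (p n : ℝ) - Real.log n - 2 * Real.log (Real.log n))
        atTop atTop →
      Tendsto (fun n => (binomialRandom (Fin n) (p n)).real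
        {G | FEq 2 G (2 * (G.minDegree - 1))}) atTop (𝓝 0)) ∧
    (∀ k, 2 ≤ k → ∀ p : ℕ → I, Tendsto (fun n : ℕ => n * (p n : ℝ) / Real.log n) atTop atTop →
      Tendsto (fun n => (binomialRandom (Fin n) (p n)).real
        {G | FEq k G (k * (G.minDegree - 1))}) atTop (𝓝 0)) := by
  constructor
  · intro p hp
    refine squeeze_zero' (.of_forall fun _ => measureReal_nonneg) ?_
      (Real.tendsto_exp_atBot.comp (tendsto_atBot_add_const_left _ 4
        (tendsto_neg_atTop_atBot.comp (hp.atTop_div_const two_pos))))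
    filter_upwards [log_tend.eventually_ge_atTop 2, hp.eventually_ge_atTop 0,
      eventually_ge_atTop 2] with n h1 h2 h3
    refine (measureReal_mono fun G hG => ?_).trans ((union (p n) (-Real.log (Real.log n))
      (-2 * Real.log (Real.log n))).trans (Real.exp_le_exp.2 ?_))
    · have : Nonempty (Fin n) := ⟨⟨0, by omega⟩⟩
      obtain ⟨v, hv⟩ := G.exists_minimal_degree_vertex
      have h4 := feq_le {v} (by simp; omega) hG
      rw [sum_singleton] at h4
      have h5 : (G.degree v : ℝ) ≤ 2 := by exact_mod_cast (by omega : G.degree v ≤ 2)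
      have h6 := Real.log_nonneg (by linarith : 1 ≤ Real.log n)
      exact ⟨v, by nlinarith⟩
    · rw [Real.exp_neg, Real.exp_log (by linarith), Nat.cast_sub (by omega)]
      set L := Real.log n
      have h4 := Real.log_le_sub_one_of_pos (by linarith : 0 < L)
      have h5 : L⁻¹ ≤ 1 / 2 := by rw [one_div]; exact inv_anti₀ two_pos h1
      have h6 : 0 < L⁻¹ := by positivity
      have h7 : L * L⁻¹ = 1 := mul_inv_cancel₀ (by linarith)
      have h8 := (p n).2.1
      have h9 := (p n).2.2
      simp only [Function.comp, Nat.cast_one]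
      nlinarith [mul_nonneg h2 (sub_nonneg.2 h5), mul_nonneg h8 h6.le,
        mul_nonneg (sub_nonneg.2 h4) h6.le]
  · intro k hk p hp
    have hk' : (2 : ℝ) ≤ k := by exact_mod_cast hk
    obtain ⟨e, he0, he1, hek⟩ : ∃ e : ℝ, 0 < e ∧ e ≤ 1 / 16 ∧ 8 * k * e = 1 :=
      ⟨1 / (8 * k), by positivity, one_div_le_one_div_of_le (by norm_num) (by linarith),
        by field_simp⟩
    refine squeeze_zero' (.of_forall fun _ => measureReal_nonneg) ?_
      (by simpa using (Real.tendsto_exp_atBot.comp (tendsto_atBot_add_const_left _ 1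
        (tendsto_neg_atTop_atBot.comp log_tend))).const_mul 2)
    filter_upwards [log_tend.eventually_ge_atTop (2 * k + 1), hp.eventually_ge_atTop (2 / e ^ 2),
      eventually_ge_atTop k] with n h1 h2 h3
    rw [div_le_div_iff₀ (by positivity) (by linarith)] at h2
    have h8 := (p n).2.1
    have h9 := (p n).2.2
    set x : ℝ := (n - 1 : ℕ) * (p n : ℝ) with hx
    have hx1 : n * (p n : ℝ) ≤ x + 1 := by
      rw [hx, Nat.cast_sub (by omega)]; push_cast; linarith
    have he2 : e ^ 2 ≤ 1 := by nlinarith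
    have hx2 : 2 * Real.log n ≤ x * e ^ 2 + 1 := by nlinarith [sq_nonneg e]
    have hx0 : 0 ≤ x := by positivity
    have hx3 : 4 * k < x := by nlinarith
    have hb := fun y : ℝ => fun hy => (abs_le.1 (Real.abs_exp_sub_one_sub_id_le (x := y) hy)).2
    have hb1 := hb e (abs_le.2 ⟨by linarith, by linarith⟩)
    have hb2 := hb (-e) (abs_le.2 ⟨by linarith, by linarith⟩)
    refine (measureReal_mono (s₂ := {G | ∃ v, e * (1 + 2 * e) * x ≤ e * G.degree v} ∪
      {G | ∃ v, -e * (1 - 2 * e) * x ≤ -e * G.degree v}) (fun G hG => ?_)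
      (measure_ne_top _ _)).trans
      ((measureReal_union_le _ _).trans ((add_le_add ((union _ _ _).trans (Real.exp_le_exp.2 ?_))
        ((union _ _ _).trans (Real.exp_le_exp.2 ?_))).trans_eq (two_mul _).symm))
    · by_contra hc
      simp only [Set.mem_union, Set.mem_ofPred_eq, not_or, not_exists, not_le] at hc
      have : Nonempty (Fin n) := ⟨⟨0, by omega⟩⟩
      obtain ⟨v, hv⟩ := G.exists_minimal_degree_vertex
      obtain ⟨S, -, hS⟩ := exists_subset_card_eq (s := (univ : Finset (Fin n))) (n := k - 1)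
        (by simp; omega)
      have h4 := feq_le S (by omega) (by rwa [hS, Nat.sub_add_cancel (by omega)])
      have h5 : ∀ u, (G.degree u : ℝ) ≤ (1 + 2 * e) * x := fun u => by
        have := hc.1 u; rw [mul_assoc] at this; exact (lt_of_mul_lt_mul_left this he0.le).le
      have h6 : (1 - 2 * e) * x ≤ G.degree v := by
        have := hc.2 v; rw [mul_assoc, neg_mul, neg_mul, neg_lt_neg_iff] at this
        exact (lt_of_mul_lt_mul_left this he0.le).le
      have h7 : (k : ℝ) * (G.degree v - 1) ≤ (k - 1) * ((1 + 2 * e) * x) := by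
        have h10 : ((k * (G.minDegree - 1) : ℕ) : ℝ) ≤ ∑ u ∈ S, (G.degree u : ℝ) := by
          exact_mod_cast h4
        have h11 := sum_le_card_nsmul S _ _ fun u _ => h5 u
        rw [hS, nsmul_eq_mul, Nat.cast_sub (by omega)] at h11
        have h12 : (G.degree v : ℝ) - 1 ≤ (G.minDegree - 1 : ℕ) := by
          rw [hv, sub_le_iff_le_add]; exact_mod_cast le_tsub_add
        push_cast at h10 h11
        nlinarith
      have h13 : k * e * x = x / 8 := by rw [show k * e = 1 / 8 by linarith]; ring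
      nlinarith [mul_le_mul_of_nonneg_left h6 (by linarith : (0 : ℝ) ≤ k), mul_nonneg he0.le hx0]
    · rw [← mul_assoc, ← hx]; nlinarith [mul_le_mul_of_nonneg_left hb1 hx0]
    · rw [← mul_assoc, ← hx]; nlinarith [mul_le_mul_of_nonneg_left hb2 hx0]

end Pool.Agent.Results.MP_e6ec33_pr.Disproof
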